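import Pool.Agent.Helper73.KT.Glue

/-!
# Multiplicities of eigenvalues under a perfect pairing (project WS)
-/

open Module Finset

namespace Pool.Agent.Helper73.WS

open Pool.Agent.Helper73.KT

section enum

variable {L W : Type} [Field L] [CharZero L] [IsAlgClosed L] [AddCommGroup W] [Module L W]
  [FiniteDimensional L W]

/-- the eigenvalues with their multiplicities -/
theorem exists_enum (T : End L W) {D : ℕ} (hD : finrank L W = D) : ∃ β : Fin D → L,
    (∀ j : ℕ, LinearMap.trace L W (T ^ j) = ∑ i, β i ^ j) ∧
      ∀ (P : L → Prop) [DecidablePred P],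
        (univ.filter fun i => P (β i)).card = ∑ c ∈ (eigs T).filter P, mult T c := by
  classical
  have hcard : Fintype.card (Σ c : eigs T, Fin (mult T c)) = D := by
    rw [Fintype.card_sigma, ← hD, ← sum_mult T, ← Finset.sum_coe_sort (eigs T)]
    exact Finset.sum_congr rfl fun c _ => Fintype.card_fin _
  let e : Fin D ≃ (Σ c : eigs T, Fin (mult T c)) :=
    (Fin.castOrderIso hcard.symm).toEquiv.trans (Fintype.equivFin _).symm
  have key : ∀ {A : Type} [AddCommMonoid A] (F : L → A),
      ∑ i, F ((e i).1 : L) = ∑ c ∈ eigs T, mult T c • F c := by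
    intro A _ F
    rw [Equiv.sum_comp e (fun x : (Σ c : eigs T, Fin (mult T c)) => F (x.1 : L)),
      Fintype.sum_sigma, ← Finset.sum_coe_sort (eigs T)]
    refine Finset.sum_congr rfl fun c _ => ?_
    simp
  refine ⟨fun i => ((e i).1 : L), fun j => ?_, fun P _ => ?_⟩
  · rw [trace_pow, key fun c => c ^ j]
    exact Finset.sum_congr rfl fun c _ => by rw [nsmul_eq_mul]
  · rw [Finset.card_filter]
    have h1 := key fun c => if P c then 1 else 0
    refine h1.trans ?_
    rw [Finset.sum_filter]
    refine Finset.sum_congr rfl fun c _ => ?_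
    split_ifs <;> simp

omit [CharZero L] [IsAlgClosed L] in
/-- an eigenvalue occurring once in the enumeration is simple -/
theorem mult_le_one {T : End L W} {D : ℕ} {β : Fin D → L}
    (hβ : ∀ (P : L → Prop) [DecidablePred P],
        (univ.filter fun i => P (β i)).card = ∑ c ∈ (eigs T).filter P, mult T c)
    {c : L} (h : ∀ i j, β i = c → β i = β j → i = j) : mult T c ≤ 1 := by
  classical
  by_cases hc : c ∈ eigs T
  · have h1 := hβ (fun x => x = c)
    have h2 : (eigs T).filter (fun x => x = c) = {c} := by
      ext x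
      rw [Finset.mem_filter, Finset.mem_singleton]
      exact ⟨fun h => h.2, fun h => ⟨h ▸ hc, h⟩⟩
    rw [h2, Finset.sum_singleton] at h1
    rw [← h1, Finset.card_le_one]
    intro i hi j hj
    rw [Finset.mem_filter] at hi hj
    exact h i j hi.2 (hi.2.trans hj.2.symm)
  · rw [mult_zero_of_notMem hc]
    omega

end enum

section pairing

variable {L W W' : Type*} [Field L] [AddCommGroup W] [Module L W] [AddCommGroup W'] [Module L W']

theorem pair_zero {T : End L W} {T' : End L W'} (b : W →ₗ[L] W' →ₗ[L] L) {Q : L}
    (hb : ∀ x y, b (T x) (T' y) = Q * b x y) {c c' : L} (hc : c * c' ≠ Q) (k : ℕ) :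
    ∀ (l : ℕ) (x : W) (y : W'), ((T - c • 1) ^ k) x = 0 → ((T' - c' • 1) ^ l) y = 0 →
      b x y = 0 := by
  induction k with
  | zero =>
    intro l x y hx _
    rw [pow_zero, End.one_apply] at hx
    rw [hx, map_zero, LinearMap.zero_apply]
  | succ k ihk =>
    intro l
    induction l with
    | zero =>
      intro x y _ hy
      rw [pow_zero, End.one_apply] at hy
      rw [hy, map_zero]
    | succ l ihl =>
      intro x y hx hy
      rw [pow_succ, End.mul_apply] at hx hy
      have hx' : T x = c • x + (T - c • 1) x := by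
        rw [LinearMap.sub_apply, LinearMap.smul_apply, End.one_apply]; abel
      have hy' : T' y = c' • y + (T' - c' • 1) y := by
        rw [LinearMap.sub_apply, LinearMap.smul_apply, End.one_apply]; abel
      have h1 := ihk (l + 1) ((T - c • 1) x) y hx (by rw [pow_succ, End.mul_apply]; exact hy)
      have h2 := ihk l ((T - c • 1) x) ((T' - c' • 1) y) hx hy
      have h3 := ihl x ((T' - c' • 1) y) (by rw [pow_succ, End.mul_apply]; exact hx) hy
      have h4 := hb x y
      rw [hx', hy'] at h4
      simp only [map_add, map_smul, LinearMap.add_apply, LinearMap.smul_apply, smul_eq_mul] at h4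
      rw [h1, h2, h3] at h4
      have h5 : (c * c' - Q) * b x y = 0 := by linear_combination h4
      exact (mul_eq_zero.1 h5).resolve_left (sub_ne_zero.2 hc)

theorem mult_le_dual [IsAlgClosed L] [FiniteDimensional L W] [FiniteDimensional L W']
    {T : End L W} {T' : End L W'} (b : W →ₗ[L] W' →ₗ[L] L) {Q : L}
    (hb : ∀ x y, b (T x) (T' y) = Q * b x y) (hn : ∀ x, (∀ y, b x y = 0) → x = 0)
    {c : L} (hc : c ≠ 0) : mult T c ≤ mult T' (Q / c) := by
  let g : T.maxGenEigenspace c →ₗ[L] Module.Dual L (T'.maxGenEigenspace (Q / c)) :=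
    b.domRestrict₁₂ (T.maxGenEigenspace c) (T'.maxGenEigenspace (Q / c))
  have hg : Function.Injective g := by
    rw [injective_iff_map_eq_zero]
    intro x hx
    apply Subtype.ext
    apply hn
    have htop : (⊤ : Submodule L W') ≤ LinearMap.ker (b x) := by
      rw [← End.iSup_maxGenEigenspace_eq_top T']
      refine iSup_le fun c' => ?_
      intro y hy
      rw [LinearMap.mem_ker]
      by_cases hcc : c * c' = Q
      · have h1 : c' = Q / c := by rw [← hcc]; field_simp
        subst h1
        exact LinearMap.congr_fun hx ⟨y, hy⟩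
      · have h1 := x.2
        rw [End.mem_maxGenEigenspace] at h1 hy
        obtain ⟨k, hk⟩ := h1
        obtain ⟨l, hl⟩ := hy
        exact pair_zero b hb hcc k l x y hk hl
    intro y
    exact htop (Submodule.mem_top (x := y))
  have h1 := LinearMap.finrank_le_finrank_of_injective hg
  rwa [Subspace.dual_finrank_eq] at h1

theorem ne_zero_of_mem_eigs [FiniteDimensional L W] {T : End L W} (hT : Function.Injective T)
    {c : L} (hc : c ∈ eigs T) : c ≠ 0 := by
  rintro rfl
  rw [mem_eigs] at hc
  apply hc
  rw [Submodule.eq_bot_iff]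
  intro x hx
  rw [End.mem_maxGenEigenspace] at hx
  obtain ⟨k, hk⟩ := hx
  rw [zero_smul, sub_zero, End.coe_pow] at hk
  have h1 : Function.Injective (T^[k]) := hT.iterate k
  exact h1 (by rw [hk, Function.iterate_fixed (map_zero T)])

end pairing

section count

variable {L W W' : Type*} [Field L] [CharZero L] [IsAlgClosed L] [AddCommGroup W] [Module L W]
  [FiniteDimensional L W] [AddCommGroup W'] [Module L W'] [FiniteDimensional L W']

/-- if `d` eigenvalues of `T` and of its dual are big, all of them simple, and at most one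
eigenvalue is left over, all eigenvalues are simple -/
theorem mult_le_one_of_count {T : End L W} {T' : End L W'} (hT : Function.Injective T)
    (hT' : Function.Injective T') (b : W →ₗ[L] W' →ₗ[L] L) {Q : L} (hQ : Q ≠ 0)
    (hb : ∀ x y, b (T x) (T' y) = Q * b x y) (hn : ∀ x, (∀ y, b x y = 0) → x = 0)
    (hn' : ∀ y, (∀ x, b x y = 0) → y = 0) {d : ℕ} (hd : finrank L W ≤ 2 * d + 1)
    (P P' : L → Prop) [DecidablePred P] [DecidablePred P']
    (h1 : ∑ c ∈ (eigs T).filter P, mult T c = d) (h2 : ∀ c, P c → mult T c ≤ 1)
    (h1' : ∑ c ∈ (eigs T').filter P', mult T' c = d) (h2' : ∀ c, P' c → mult T' c ≤ 1)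
    (hdis : ∀ c, c ≠ 0 → P c → ¬ P' (Q / c)) (c : L) : mult T c ≤ 1 := by
  classical
  have hdual : ∀ c, c ≠ 0 → mult T c = mult T' (Q / c) := by
    intro c hc
    apply le_antisymm (mult_le_dual b hb hn hc)
    have h3 := mult_le_dual (T := T') (T' := T) b.flip (Q := Q)
      (fun x y => hb y x) (fun x hx => hn' x fun y => hx y) (c := Q / c) (div_ne_zero hQ hc)
    rwa [div_div_cancel₀ hQ] at h3
  by_contra hcon
  have hc : c ∈ eigs T := by
    by_contra h
    rw [mult_zero_of_notMem h] at hcon
    omega
  have hc0 := ne_zero_of_mem_eigs hT hc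
  have hPc : ¬ P c := fun h => hcon (h2 c h)
  have hPc' : ¬ P' (Q / c) := fun h => hcon (by rw [hdual c hc0]; exact h2' _ h)
  -- the eigenvalues whose dual is big
  set A := (eigs T).filter P with hA
  set A' := (eigs T).filter (fun c => P' (Q / c)) with hA'
  have hA's : ∑ c ∈ A', mult T c = d := by
    rw [← h1']
    refine Finset.sum_bij (fun c _ => Q / c) ?_ ?_ ?_ ?_
    · intro a ha
      rw [hA', Finset.mem_filter] at ha
      rw [Finset.mem_filter]
      refine ⟨?_, ha.2⟩
      have ha0 := ne_zero_of_mem_eigs hT ha.1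
      by_contra h
      have h4 := mult_zero_of_notMem h
      have h5 := one_le_mult ha.1
      rw [hdual a ha0, h4] at h5
      omega
    · intro a ha a' ha' h
      rw [hA', Finset.mem_filter] at ha ha'
      have ha0 := ne_zero_of_mem_eigs hT ha.1
      have ha0' := ne_zero_of_mem_eigs hT ha'.1
      have h4 : Q / (Q / a) = Q / (Q / a') := by
        have : Q / a = Q / a' := h
        rw [this]
      rwa [div_div_cancel₀ hQ, div_div_cancel₀ hQ] at h4
    · intro a' ha'
      rw [Finset.mem_filter] at ha'
      have ha0' := ne_zero_of_mem_eigs hT' ha'.1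
      refine ⟨Q / a', ?_, div_div_cancel₀ hQ⟩
      rw [hA', Finset.mem_filter, div_div_cancel₀ hQ]
      refine ⟨?_, ha'.2⟩
      by_contra h
      have h4 := mult_zero_of_notMem h
      have h5 := one_le_mult ha'.1
      rw [hdual _ (div_ne_zero hQ ha0'), div_div_cancel₀ hQ] at h4
      omega
    · intro a ha
      rw [hA', Finset.mem_filter] at ha
      exact hdual a (ne_zero_of_mem_eigs hT ha.1)
  have hdisj : Disjoint A A' := by
    rw [Finset.disjoint_left]
    intro a ha ha'
    rw [hA, Finset.mem_filter] at ha
    rw [hA', Finset.mem_filter] at ha'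
    exact hdis a (ne_zero_of_mem_eigs hT ha.1) ha.2 ha'.2
  have hcA : c ∉ A ∪ A' := by
    rw [Finset.mem_union, not_or, hA, hA', Finset.mem_filter, Finset.mem_filter]
    exact ⟨fun h => hPc h.2, fun h => hPc' h.2⟩
  have hsub : insert c (A ∪ A') ⊆ eigs T := by
    intro a ha
    rw [Finset.mem_insert, Finset.mem_union] at ha
    rcases ha with rfl | ha | ha
    · exact hc
    · exact Finset.mem_of_mem_filter a ha
    · exact Finset.mem_of_mem_filter a ha
  have h6 : ∑ a ∈ insert c (A ∪ A'), mult T a ≤ ∑ a ∈ eigs T, mult T a :=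
    Finset.sum_le_sum_of_subset hsub
  rw [Finset.sum_insert hcA, Finset.sum_union hdisj, h1, hA's, sum_mult] at h6
  omega

end count

section semis

variable {L V : Type*} [Field L] [IsAlgClosed L] [AddCommGroup V] [Module L V]
    [FiniteDimensional L V]

/-- if all eigenvalues are simple the space is spanned by eigenvectors -/
theorem le_of_mult {f : End L V} {p : Submodule L V} (h : ∀ x ∈ p, f x ∈ p)
    (hm : ∀ c, mult (f.restrict h) c ≤ 1) : p ≤ ⨆ a, f.eigenspace a := by
  apply le_of_semisimple h
  apply Helper13.Equiv.semisimple_of_span (fun _ : Unit => (⊤ : Submodule L p))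
  · intro _ x _; exact Submodule.mem_top
  · exact iSup_const
  · intro _ x _ a hx; exact semis_of_mult (hm a) hx

end semis

end Pool.Agent.Helper73.WS
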